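import Mathlib
import Pool.Agent.H39.PiLength

set_option autoImplicit false

namespace Pool.Agent.Results.MP_bbd7c2_al.ExplicitTower

open Pool.Agent.H39.PiLength

/-- `H` has nilpotent length at most `n`: there is a normal series of length `n` in which each
factor `t (i + 1) / t i` is nilpotent, that is, some term of the lower central series of
`t (i + 1)` lies in `t i`. -/
def NilpotentLengthLE (H : Type) [Group H] (n : ℕ) : Prop :=
  ∃ t : ℕ → Subgroup H, t 0 = ⊥ ∧ t n = ⊤ ∧ (∀ i ≤ n, (t i).Normal) ∧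
    (∀ i < n, t i ≤ t (i + 1)) ∧ ∀ i < n, ∃ c : ℕ, (t (i + 1)).lowerCentralSeries c ≤ t i

/-- `G` has `p`-length at most `n`: there is a normal series in which each factor has order prime
to `p` or a power of `p`, the latter for at most `n` indices. -/
def PLengthLE (p : ℕ) (G : Type) [Group G] (n : ℕ) : Prop :=
  ∃ (k : ℕ) (s : ℕ → Subgroup G) (T : Finset ℕ), T.card ≤ n ∧ s 0 = ⊥ ∧ s k = ⊤ ∧
    (∀ i ≤ k, (s i).Normal) ∧ (∀ i < k, s i ≤ s (i + 1)) ∧
    ∀ i < k, (¬ p ∣ (s i).relIndex (s (i + 1))) ∨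
      (i ∈ T ∧ ∃ e : ℕ, (s i).relIndex (s (i + 1)) = p ^ e)

/-- `G` has nilpotent `π`-length at most `n`: there is a normal series in which each factor has
order prime to all the primes of `π`, or is nilpotent with all prime divisors of its order in
`π`, the latter for at most `n` indices. -/
def NilpotentPiLengthLE (π : Set ℕ) (G : Type) [Group G] (n : ℕ) : Prop :=
  ∃ (k : ℕ) (s : ℕ → Subgroup G) (T : Finset ℕ), T.card ≤ n ∧ s 0 = ⊥ ∧ s k = ⊤ ∧
    (∀ i ≤ k, (s i).Normal) ∧ (∀ i < k, s i ≤ s (i + 1)) ∧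
    ∀ i < k, (∀ q : ℕ, q.Prime → q ∣ (s i).relIndex (s (i + 1)) → q ∉ π) ∨
      (i ∈ T ∧ (∀ q : ℕ, q.Prime → q ∣ (s i).relIndex (s (i + 1)) → q ∈ π) ∧
        ∃ c : ℕ, (s (i + 1)).lowerCentralSeries c ≤ s i)

theorem solvable_of_ext {p : ℕ} (hp : p.Prime) {G Q : Type} [Group G] [Group Q] [Finite G]
    {f : G →* Q} {σ : Q →* G} (h : IsExt p f σ) (hQ : Group.IsSolvable Q) : Group.IsSolvable G := by
  have : Fact p.Prime := ⟨hp⟩
  have h1 : Group.IsNilpotent f.ker := h.pgroup.isNilpotent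
  have h2 : Group.IsSolvable f.ker := inferInstance
  exact Group.isSolvable_of_ker_le_range f.ker.subtype f (by simp)

/-- There is a finite soluble group `G` with a Hall `{2, 3}`-subgroup `H` of nilpotent length at
most 2 (its index is a power of 5), of 2-length and 3-length at most 2, and of nilpotent
`{2, 3}`-length more than 3. -/
theorem result : ∃ (G : Type) (_ : Group G) (_ : Finite G) (H : Subgroup G),
    Group.IsSolvable G ∧
    (∀ l : ℕ, l.Prime → l ∣ Nat.card G → l = 2 ∨ l = 3 ∨ l = 5) ∧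
    (∀ l : ℕ, l.Prime → l ∣ Nat.card H → l = 2 ∨ l = 3) ∧
    (∀ l : ℕ, l.Prime → l ∣ H.index → l = 5) ∧
    H ≠ ⊥ ∧ NilpotentLengthLE H 2 ∧ PLengthLE 2 G 2 ∧ PLengthLE 3 G 2 ∧
    ¬ NilpotentPiLengthLE {2, 3} G 3 := by
  have p2 : Nat.Prime 2 := Nat.prime_two
  have p3 : Nat.Prime 3 := Nat.prime_three
  have p5 : Nat.Prime 5 := Nat.prime_five
  have hc : Nat.card (Multiplicative (ZMod 3)) = 3 := by
    rw [Nat.card_eq_fintype_card]; rfl
  obtain ⟨G₂, _, _, f₂, σ₂, h₂⟩ := exists_ext (Multiplicative (ZMod 3)) 5 p5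
  obtain ⟨G₃, _, _, f₃, σ₃, h₃⟩ := exists_ext G₂ 3 p3
  obtain ⟨G₄, _, _, f₄, σ₄, h₄⟩ := exists_ext G₃ 2 p2
  obtain ⟨G₅, _, _, f₅, σ₅, h₅⟩ := exists_ext G₄ 5 p5
  obtain ⟨G₆, _, _, f₆, σ₆, h₆⟩ := exists_ext G₅ 2 p2
  have hsol : Group.IsSolvable G₆ := solvable_of_ext p2 h₆ (solvable_of_ext p5 h₅
    (solvable_of_ext p2 h₄ (solvable_of_ext p3 h₃ (solvable_of_ext p5 h₂ inferInstance))))
  obtain ⟨hs0, hs6, hsn, hsm, hsr⟩ := chain_props p2 p3 p5 p5 h₂ h₃ h₄ h₅ h₆ hc
  obtain ⟨H, hH1, hH2, hH3⟩ := hall_props p2 p3 p5 p5 h₂ h₃ h₄ h₅ h₆ hc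
  have hno : ¬ HasSeries {2, 3} G₆ 3 :=
    no_series p2 p3 p5 p5 (by simp) (by simp) (by simp) (by simp) (by norm_num)
      h₂ h₃ h₄ h₅ h₆ (by rw [hc])
  set s := chain f₂ f₃ f₄ f₅ f₆ with hs
  have pne : ∀ i < 6, ∀ l : ℕ, l.Prime →
      l ∣ Nat.card (s (i + 1)) / Nat.card (s i) → l = pr 2 3 5 5 i := by
    intro i hi l hl hd
    obtain ⟨e, he⟩ := hsr i hi
    rw [he] at hd
    have h1 := hl.dvd_of_dvd_pow hd
    have h2 : (pr 2 3 5 5 i).Prime := by
      interval_cases i <;> simp only [pr] <;> norm_num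
    exact (Nat.prime_dvd_prime_iff_eq hl h2).mp h1
  have hdiv : ∀ i ≤ 6, ∀ l : ℕ, l.Prime → l ∣ Nat.card (s i) → l = 2 ∨ l = 3 ∨ l = 5 := by
    intro i
    induction i with
    | zero =>
      intro _ l hl hd
      rw [hs0, Subgroup.card_bot] at hd
      exact absurd (Nat.dvd_one.mp hd) hl.one_lt.ne'
    | succ i ih =>
      intro hi l hl hd
      have hmul : Nat.card (s (i + 1)) = Nat.card (s i) * (s i).relIndex (s (i + 1)) := by
        have h1 : (⊥ : Subgroup G₆).relIndex (s i) * (s i).relIndex (s (i + 1))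
            = (⊥ : Subgroup G₆).relIndex (s (i + 1)) :=
          Subgroup.relIndex_mul_relIndex ⊥ _ _ bot_le (hsm i (by omega))
        rw [Subgroup.relIndex_bot_left, Subgroup.relIndex_bot_left] at h1
        exact h1.symm
      rw [hmul] at hd
      rcases hl.dvd_mul.mp hd with h | h
      · exact ih (by omega) l hl h
      · rw [← card_div_card (hsm i (by omega))] at h
        have h3 := pne i (by omega) l hl h
        have hi' : i < 6 := by omega
        interval_cases i <;> simp only [pr] at h3 <;> omega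
  refine ⟨G₆, inferInstance, inferInstance, H, hsol, ?_, ?_, ?_, ?_, ?_, ?_, ?_, ?_⟩
  · intro l hl hd
    apply hdiv 6 le_rfl l hl
    rw [hs6, Subgroup.card_top]
    exact hd
  · intro l hl hd
    exact hH1 l hl hd
  · intro l hl hd
    rcases hH2 l hl hd with h | h <;> exact h
  · intro hb
    have h1 : Nat.card G₆ = H.index := by
      rw [hb, Subgroup.index_bot]
    have h2 : 2 ∣ Nat.card G₆ := by
      have hnt : Nontrivial G₆ := h₆.nontriv
      obtain ⟨e, he⟩ := h₆.exists_card p2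
      rw [h₆.card_eq]
      apply Dvd.dvd.mul_right
      by_contra hnd
      have hbot := h₆.trivial_of_not_dvd p2 f₆.ker inferInstance hnd
      -- the kernel is self-centralizing, so it cannot be trivial
      have : ∀ g : G₆, g = 1 := by
        intro g
        have := h₆.central g (by
          intro n hn
          rw [hbot, Subgroup.mem_bot] at hn
          rw [hn, mul_one, one_mul])
        rw [hbot, Subgroup.mem_bot] at this
        exact this
      obtain ⟨x, y, hxy⟩ := hnt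
      exact hxy (by rw [this x, this y])
    rw [h1] at h2
    rcases hH2 2 p2 h2 with h | h <;> omega
  · obtain ⟨t, t0, t2, tn, tm, tc⟩ := hH3
    refine ⟨t, t0, t2, tn, tm, ?_⟩
    intro i hi
    obtain ⟨c, hcc⟩ := tc i hi
    exact ⟨c, by rw [← iter_eq]; exact hcc⟩
  · refine ⟨6, s, {0, 2}, by decide, hs0, hs6, hsn, hsm, ?_⟩
    intro i hi
    rw [← card_div_card (hsm i hi)]
    by_cases h2 : pr 2 3 5 5 i = 2
    · right
      refine ⟨?_, ?_⟩
      · interval_cases i <;> simp [pr] at h2 ⊢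
      · obtain ⟨e, he⟩ := hsr i hi
        exact ⟨e, by rw [he, h2]⟩
    · left
      intro hd
      exact h2 (pne i hi 2 Nat.prime_two hd).symm
  · refine ⟨6, s, {3, 5}, by decide, hs0, hs6, hsn, hsm, ?_⟩
    intro i hi
    rw [← card_div_card (hsm i hi)]
    by_cases h2 : pr 2 3 5 5 i = 3
    · right
      refine ⟨?_, ?_⟩
      · interval_cases i <;> simp [pr] at h2 ⊢
      · obtain ⟨e, he⟩ := hsr i hi
        exact ⟨e, by rw [he, h2]⟩
    · left
      intro hd
      exact h2 (pne i hi 3 Nat.prime_three hd).symm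
  · rintro ⟨k, u, T, hT, hu0, huk, hun, hum, hu⟩
    apply hno
    refine ⟨k, u, T, hT, hu0, huk, hun, hum, ?_⟩
    intro i hi
    rw [card_div_card (hum i hi)]
    rcases hu i hi with h | ⟨h1, h2, c, h3⟩
    · left; exact h
    · right; exact ⟨h1, h2, c, by rw [iter_eq]; exact h3⟩

end Pool.Agent.Results.MP_bbd7c2_al.ExplicitTower
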